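import Pool.Agent.KS6_36.PG.Main

/-!
# Components of the space of embedded closed polygons with a torus of any dimension as a retract

For every `n ≥ 7` there are generic side lengths `ℓ_1, …, ℓ_n` such that some component of
`M_ℓ ∖ X` is not contractible, and even has the torus of dimension `⌊(n - 1) / 6⌋` as a retract.
-/

set_option autoImplicit false

namespace Pool.Agent.Results.MP_e82153_gt.TorusRetracts

/-- Euclidean space of dimension three. -/
abbrev E3 := EuclideanSpace ℝ (Fin 3)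

/-- The tuple consists of unit vectors and the polygon closes up: `∑ ℓ_i u_i = 0`. -/
def IsClosedTuple {n : ℕ} (ℓ : Fin n → ℝ) (u : Fin n → E3) : Prop :=
  (∀ i, ‖u i‖ = 1) ∧ ∑ i, ℓ i • u i = 0

/-- The tuples `(u_1, …, u_n)` of unit vectors with `∑ ℓ_i u_i = 0`. -/
abbrev ClosedTuple {n : ℕ} (ℓ : Fin n → ℝ) : Type := {u : Fin n → E3 // IsClosedTuple ℓ u}

/-- A rotation is a linear isometry of determinant one. -/
def IsRotation (g : E3 ≃ₗᵢ[ℝ] E3) : Prop :=
  LinearMap.det (g.toLinearEquiv : E3 →ₗ[ℝ] E3) = 1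

/-- Some rotation carries the tuple `u` to the tuple `v`. -/
def Rotated {n : ℕ} {ℓ : Fin n → ℝ} (u v : ClosedTuple ℓ) : Prop :=
  ∃ g : E3 ≃ₗᵢ[ℝ] E3, IsRotation g ∧ ∀ i, v.1 i = g (u.1 i)

theorem rotated_equivalence {n : ℕ} (ℓ : Fin n → ℝ) : Equivalence (@Rotated n ℓ) :=
  (Knotted.rotSetoid ℓ).iseqv

/-- Tuples that differ by a rotation are identified. -/
def rotSetoid {n : ℕ} (ℓ : Fin n → ℝ) : Setoid (ClosedTuple ℓ) :=
  ⟨Rotated, rotated_equivalence ℓ⟩

/-- The polygon space `M_ℓ`, with the quotient topology. -/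
abbrev PolygonSpace {n : ℕ} (ℓ : Fin n → ℝ) : Type := Quotient (rotSetoid ℓ)

/-- The vertex `p_k = ∑_{i < k} ℓ_i u_i` (with sides numbered `0, …, n-1`). -/
def vertex {n : ℕ} (ℓ : Fin n → ℝ) (u : Fin n → E3) (k : ℕ) : E3 :=
  ∑ i ∈ Finset.univ.filter (fun i : Fin n => (i : ℕ) < k), ℓ i • u i

/-- The side number `i`, from `p_i` to `p_{i+1}`. -/
def side {n : ℕ} (ℓ : Fin n → ℝ) (u : Fin n → E3) (i : Fin n) : Set E3 :=
  segment ℝ (vertex ℓ u i) (vertex ℓ u (i + 1))

/-- The point `x` is the common end point of the side `i` and the next side `j`. -/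
def IsJoint {n : ℕ} (ℓ : Fin n → ℝ) (u : Fin n → E3) (i j : Fin n) (x : E3) : Prop :=
  (j : ℕ) = (i + 1) % n ∧ x = vertex ℓ u (i + 1)

/-- Self-intersecting configurations: two different sides have a common point, other than the
common end point of two consecutive sides. -/
def SelfIntersecting {n : ℕ} (ℓ : Fin n → ℝ) (u : Fin n → E3) : Prop :=
  ∃ i j : Fin n, i ≠ j ∧ ∃ x, x ∈ side ℓ u i ∧ x ∈ side ℓ u j ∧
    ¬ IsJoint ℓ u i j x ∧ ¬ IsJoint ℓ u j i x

/-- The set `X ⊆ M_ℓ` of self-intersecting configurations. -/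
def X {n : ℕ} (ℓ : Fin n → ℝ) : Set (PolygonSpace ℓ) :=
  {q | ∃ u : ClosedTuple ℓ, Quotient.mk (rotSetoid ℓ) u = q ∧ SelfIntersecting ℓ u.1}

/-- No signed sum of the lengths vanishes: there is no collinear closed polygon. -/
def Generic {n : ℕ} (ℓ : Fin n → ℝ) : Prop :=
  ∀ ε : Fin n → ℝ, (∀ i, ε i = 1 ∨ ε i = -1) → ∑ i, ε i * ℓ i ≠ 0

/-- The torus of dimension `K` is a retract of the space `C`. -/
def HasTorusRetract (K : ℕ) (C : Type) [TopologicalSpace C] : Prop :=
  ∃ (i : C(Fin K → Circle, C)) (r : C(C, Fin K → Circle)), ∀ s, r (i s) = s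

/-- For all `K ≥ 1` and all `n ≥ 6 K + 1` there are a length vector `ℓ` with `n` positive entries
and without a collinear closed polygon (no signed sum of the lengths vanishes), and a connected
component of `M_ℓ ∖ X` of which the torus of dimension `K` is a retract; this component is neither
simply connected nor contractible. -/
theorem result (K n : ℕ) (hK : 1 ≤ K) (hn : 6 * K + 1 ≤ n) :
    ∃ ℓ : Fin n → ℝ, (∀ i, 0 < ℓ i) ∧ Generic ℓ ∧
      ∃ q : ↥(X ℓ)ᶜ, HasTorusRetract K (connectedComponent q) ∧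
        ¬ SimplyConnectedSpace (connectedComponent q) ∧
        ¬ ContractibleSpace (connectedComponent q) :=
  Pool.Agent.KS6_36.PG.main hK hn

end Pool.Agent.Results.MP_e82153_gt.TorusRetracts
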